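import Pool.Agent.Helper36.VX.M_PLL
import Pool.Agent.Helper8.VX.M_BIT
import Pool.Agent.Helper40.VX.M_PIW
import Pool.Agent.Helper58.VX.M_STL
import Pool.Agent.Helper6.VX.M_VOS
import Pool.Agent.Helper75.VX.M_STQ
import Pool.Agent.Helper38.VX.M_STP
import Pool.Agent.Helper30.VX.M_VAR
import Pool.Agent.Helper94.VX.M_ALS
import Pool.Agent.Helper72.VX.M_FIV
import Pool.Agent.Helper42.VX.M_FIN
import Pool.Agent.Helper11.PV.All

/-!
# Project VX (MP_e12aa9_pr): assembly of the modules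
-/

set_option autoImplicit false

namespace Pool.Agent.Helper69.VX

open Pool.Agent.Helper11.PV

theorem aPLL : StPLL := Pool.Agent.Helper36.VX.hPLL aLLG
theorem aBIT : StBIT := Pool.Agent.Helper8.VX.hBIT
theorem aPIW : StPIW := Pool.Agent.Helper40.VX.hPIW aPHB aPIV
theorem aSTL : StSTL := Pool.Agent.Helper58.VX.hSTL aPIV aPIW
theorem aVOS : StVOS := Pool.Agent.Helper6.VX.hVOS aPHB
theorem aSTQ : StSTQ := Pool.Agent.Helper75.VX.hSTQ aBIT aVOS
theorem aSTP : StSTP := Pool.Agent.Helper38.VX.hSTP aPLL aVOS aPIV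
theorem aVAR : StVAR := Pool.Agent.Helper30.VX.hVAR aSTP aSTL aSTQ
theorem aALS : StALS := Pool.Agent.Helper94.VX.hALS Pool.Agent.Helper94.PV.tUBD
theorem aFIV : StFIV := Pool.Agent.Helper72.VX.hFIV aVAR aALS
theorem aFIN : StFIN := Pool.Agent.Helper42.VX.hFIN aCMP aFIV

end Pool.Agent.Helper69.VX
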