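import Pool.Agent.Helper11.PV.Defs

/-!
# Project VX (MP_e12aa9_pr): the variance of the chromatic number for every `n` and every `p`

THEOREM. For `0 < p₀ < p₁ < 1` there is `C` with `Var χ(G(n,p)) ≤ C n / (log n)³` for all `n ≥ 2` and all `p ∈ [p₀,p₁]`.

Library: means over the bits outside a set `K` of bits.
-/

set_option autoImplicit false

namespace Pool.Agent.Helper69.VX

open Finset Pool.Agent.Helper82.CN Pool.Agent.Helper11.PV

variable {ι : Type}

open Classical in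
/-- the bits in `K` from `ω`, the others from `η` -/
noncomputable def mix (K : Set ι) (ω η : ι → Bool) : ι → Bool := fun i => if i ∈ K then ω i else η i

lemma mix_pos {K : Set ι} {ω η : ι → Bool} {i : ι} (h : i ∈ K) : mix K ω η i = ω i := by
  simp [mix, h]

lemma mix_neg {K : Set ι} {ω η : ι → Bool} {i : ι} (h : i ∉ K) : mix K ω η i = η i := by
  simp [mix, h]

lemma mix_mix (K L : Set ι) (ω η ζ : ι → Bool) :
    mix L (mix K ω η) ζ = mix (K ∩ L) ω (mix L η ζ) := by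
  funext i
  by_cases h1 : i ∈ K <;> by_cases h2 : i ∈ L <;> simp [mix, h1, h2]

lemma mix_left (K : Set ι) (ω η ζ : ι → Bool) : mix K (mix K ω η) ζ = mix K ω ζ := by
  funext i
  by_cases h1 : i ∈ K <;> simp [mix, h1]

/-- exchange of the bits outside `K` -/
noncomputable def mixEquiv (K : Set ι) : ((ι → Bool) × (ι → Bool)) ≃ ((ι → Bool) × (ι → Bool)) where
  toFun x := (mix K x.1 x.2, mix K x.2 x.1)
  invFun x := (mix K x.1 x.2, mix K x.2 x.1)
  left_inv x := by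
    ext i <;> by_cases h1 : i ∈ K <;> simp [mix, h1]
  right_inv x := by
    ext i <;> by_cases h1 : i ∈ K <;> simp [mix, h1]

variable [Fintype ι] [DecidableEq ι]

/-- the mean over the bits outside `K` -/
noncomputable def AV (p : ℝ) (K : Set ι) (F : (ι → Bool) → ℝ) (ω : ι → Bool) : ℝ :=
  EE p (fun η => F (mix K ω η))

/-- second moment of the mean over the bits outside `K` -/
noncomputable def NN (p : ℝ) (K : Set ι) (F : (ι → Bool) → ℝ) : ℝ :=
  EE p (fun ω => AV p K F ω ^ 2)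

/-- `F` depends only on the bits in `S` -/
def Dep (S : Set ι) (F : (ι → Bool) → ℝ) : Prop :=
  ∀ ω ω' : ι → Bool, (∀ i ∈ S, ω i = ω' i) → F ω = F ω'

/-- Fubini -/
theorem EE_mix (p : ℝ) (K : Set ι) (F : (ι → Bool) → ℝ) :
    EE p (fun ω => EE p (fun η => F (mix K ω η))) = EE p F := by
  have h1 : EE p (fun ω => EE p (fun η => F (mix K ω η))) =
      ∑ x : (ι → Bool) × (ι → Bool), (∏ i, bw p (x.1 i)) * (∏ i, bw p (x.2 i)) * F (mix K x.1 x.2) := by
    unfold EE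
    rw [Fintype.sum_prod_type]
    refine Finset.sum_congr rfl fun ω _ => ?_
    rw [Finset.mul_sum]
    refine Finset.sum_congr rfl fun η _ => ?_
    ring
  have h2 : ∀ x : (ι → Bool) × (ι → Bool),
      (∏ i, bw p (x.1 i)) * (∏ i, bw p (x.2 i)) * F (mix K x.1 x.2) =
      (∏ i, bw p ((mixEquiv K x).1 i)) * (∏ i, bw p ((mixEquiv K x).2 i)) * F (mixEquiv K x).1 := by
    intro x
    have h3 : (∏ i, bw p (x.1 i)) * (∏ i, bw p (x.2 i)) =
        (∏ i, bw p ((mixEquiv K x).1 i)) * (∏ i, bw p ((mixEquiv K x).2 i)) := by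
      rw [← Finset.prod_mul_distrib, ← Finset.prod_mul_distrib]
      refine Finset.prod_congr rfl fun i _ => ?_
      show bw p (x.1 i) * bw p (x.2 i) = bw p (mix K x.1 x.2 i) * bw p (mix K x.2 x.1 i)
      by_cases h : i ∈ K
      · rw [mix_pos h, mix_pos h]
      · rw [mix_neg h, mix_neg h, mul_comm]
    rw [h3]
    rfl
  rw [h1, Finset.sum_congr rfl (fun x _ => h2 x), (mixEquiv K).sum_comp
    (fun x => (∏ i, bw p (x.1 i)) * (∏ i, bw p (x.2 i)) * F x.1), Fintype.sum_prod_type]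
  unfold EE
  refine Finset.sum_congr rfl fun ω _ => ?_
  have h4 : ∀ η : ι → Bool, (∏ i, bw p (ω i)) * (∏ i, bw p (η i)) * F ω =
      (∏ i, bw p (η i)) * ((∏ i, bw p (ω i)) * F ω) := fun η => by ring
  rw [Finset.sum_congr rfl (fun η _ => h4 η), ← Finset.sum_mul, wt_sum, one_mul]

theorem EE_AV (p : ℝ) (K : Set ι) (F : (ι → Bool) → ℝ) : EE p (AV p K F) = EE p F := EE_mix p K F

theorem AV_AV (p : ℝ) (K L : Set ι) (F : (ι → Bool) → ℝ) :
    AV p K (AV p L F) = AV p (K ∩ L) F := by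
  funext ω
  unfold AV
  simp only [mix_mix]
  exact EE_mix p L (fun ξ => F (mix (K ∩ L) ω ξ))

theorem AV_mix (p : ℝ) (K : Set ι) (F : (ι → Bool) → ℝ) (ω η : ι → Bool) :
    AV p K F (mix K ω η) = AV p K F ω := by
  unfold AV
  simp only [mix_left]

theorem AV_mono {p : ℝ} (h0 : 0 ≤ p) (h1 : p ≤ 1) (K : Set ι) {F G : (ι → Bool) → ℝ}
    (h : ∀ ω, F ω ≤ G ω) (ω : ι → Bool) : AV p K F ω ≤ AV p K G ω :=
  EE_mono h0 h1 fun _ => h _

theorem AV_nonneg {p : ℝ} (h0 : 0 ≤ p) (h1 : p ≤ 1) (K : Set ι) {F : (ι → Bool) → ℝ}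
    (h : ∀ ω, 0 ≤ F ω) (ω : ι → Bool) : 0 ≤ AV p K F ω :=
  EE_nonneg h0 h1 fun _ => h _

/-- Jensen -/
theorem AV_sq {p : ℝ} (h0 : 0 ≤ p) (h1 : p ≤ 1) (K : Set ι) (F : (ι → Bool) → ℝ) (ω : ι → Bool) :
    AV p K F ω ^ 2 ≤ AV p K (fun ζ => F ζ ^ 2) ω := by
  have h := EE_cs h0 h1 (fun η => F (mix K ω η)) (fun _ : ι → Bool => (1 : ℝ))
  simp only [mul_one, one_pow, EE_const] at h
  exact h

theorem NN_le {p : ℝ} (h0 : 0 ≤ p) (h1 : p ≤ 1) (K : Set ι) (F : (ι → Bool) → ℝ) :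
    NN p K F ≤ EE p (fun ω => F ω ^ 2) := by
  refine le_trans (EE_mono h0 h1 fun ω => AV_sq h0 h1 K F ω) (le_of_eq ?_)
  exact EE_AV p K (fun ζ => F ζ ^ 2)

theorem NN_nonneg {p : ℝ} (h0 : 0 ≤ p) (h1 : p ≤ 1) (K : Set ι) (F : (ι → Bool) → ℝ) :
    0 ≤ NN p K F := EE_nonneg h0 h1 fun _ => sq_nonneg _

theorem NN_AV (p : ℝ) (K L : Set ι) (F : (ι → Bool) → ℝ) : NN p K (AV p L F) = NN p (K ∩ L) F := by
  unfold NN
  rw [AV_AV]

theorem NN_mono {p : ℝ} (h0 : 0 ≤ p) (h1 : p ≤ 1) {K L : Set ι} (h : K ⊆ L)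
    (F : (ι → Bool) → ℝ) : NN p K F ≤ NN p L F := by
  have h2 := NN_le h0 h1 K (AV p L F)
  rw [NN_AV, Set.inter_eq_left.mpr h] at h2
  exact h2

/-- Pythagoras -/
theorem pyth (p : ℝ) (K : Set ι) (F : (ι → Bool) → ℝ) :
    EE p (fun ω => (F ω - AV p K F ω) ^ 2) = EE p (fun ω => F ω ^ 2) - NN p K F := by
  have h1 : EE p (fun ω => F ω * AV p K F ω) = NN p K F := by
    rw [← EE_mix p K (fun ω => F ω * AV p K F ω)]
    unfold NN
    congr 1
    funext ω
    simp only [AV_mix]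
    rw [EE_mul_right, sq]
    rfl
  have h2 : ∀ ω, (F ω - AV p K F ω) ^ 2 = (F ω ^ 2 + AV p K F ω ^ 2) - 2 * (F ω * AV p K F ω) :=
    fun ω => by ring
  simp only [h2]
  rw [EE_sub, EE_add, EE_mul_left, h1]
  show EE p (fun ω => F ω ^ 2) + NN p K F - 2 * NN p K F = _
  ring

omit [Fintype ι] in
lemma mix_update {K : Set ι} {i : ι} (h : i ∈ K) (ω η : ι → Bool) (b : Bool) :
    mix K (Function.update ω i b) η = Function.update (mix K ω η) i b := by
  funext j
  by_cases hj : j = i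
  · subst hj
    rw [mix_pos h, Function.update_self, Function.update_self]
  · rw [Function.update_of_ne hj]
    by_cases hK : j ∈ K
    · rw [mix_pos hK, mix_pos hK, Function.update_of_ne hj]
    · rw [mix_neg hK, mix_neg hK]

theorem DD_AV (p : ℝ) {K : Set ι} {i : ι} (h : i ∈ K) (F : (ι → Bool) → ℝ) :
    DD (AV p K F) i = AV p K (DD F i) := by
  funext ω
  unfold DD AV
  rw [← EE_sub]
  simp only [mix_update h]

omit [Fintype ι] in
/-- `DD F i` does not depend on the bit `i` -/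
lemma dep_DD (F : (ι → Bool) → ℝ) (i : ι) {S : Set ι} (h : Dep S F) : Dep (S \ {i}) (DD F i) := by
  intro ω ω' hω
  unfold DD
  have h1 : ∀ b : Bool, ∀ j ∈ S, Function.update ω i b j = Function.update ω' i b j := by
    intro b j hj
    by_cases hji : j = i
    · subst hji
      rw [Function.update_self, Function.update_self]
    · rw [Function.update_of_ne hji, Function.update_of_ne hji]
      exact hω j ⟨hj, hji⟩
  rw [h _ _ (h1 true), h _ _ (h1 false)]

omit [DecidableEq ι] [Fintype ι] in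
lemma dep_univ (F : (ι → Bool) → ℝ) : Dep Set.univ F := by
  intro ω ω' h
  rw [funext fun i => h i trivial]

/-- only the bits in `S` matter -/
theorem AV_congr (p : ℝ) {S K L : Set ι} {F : (ι → Bool) → ℝ} (h : Dep S F)
    (hKL : K ∩ S = L ∩ S) : AV p K F = AV p L F := by
  funext ω
  unfold AV
  congr 1
  funext η
  refine h _ _ fun i hi => ?_
  by_cases hK : i ∈ K
  · have hL : i ∈ L := (hKL ▸ (⟨hK, hi⟩ : i ∈ K ∩ S) : i ∈ L ∩ S).1
    rw [mix_pos hK, mix_pos hL]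
  · have hL : i ∉ L := fun hL => hK (hKL ▸ (⟨hL, hi⟩ : i ∈ L ∩ S) : i ∈ K ∩ S).1
    rw [mix_neg hK, mix_neg hL]

theorem AV_dep (p : ℝ) {S K : Set ι} {F : (ι → Bool) → ℝ} (h : Dep S F) (hS : S ⊆ K) :
    AV p K F = F := by
  funext ω
  unfold AV
  have h1 : ∀ η, F (mix K ω η) = F ω := fun η => h _ _ fun i hi => mix_pos (hS hi)
  simp only [h1, EE_const]

/-- reindexing -/
theorem AV_perm (p : ℝ) (σ : ι ≃ ι) (K : Set ι) (F : (ι → Bool) → ℝ) (ω : ι → Bool) :
    AV p K F (fun i => ω (σ i)) = AV p (σ '' K) (fun ζ => F (fun i => ζ (σ i))) ω := by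
  unfold AV
  rw [← EE_equiv p σ (fun η => F (mix K (fun i => ω (σ i)) η))]
  congr 1
  funext η
  congr 1
  funext i
  by_cases h : i ∈ K
  · rw [mix_pos h, mix_pos (Set.mem_image_of_mem σ h)]
  · have h' : σ i ∉ σ '' K := by
      rintro ⟨j, hj, hji⟩
      exact h (σ.injective hji ▸ hj)
    rw [mix_neg h, mix_neg h']

theorem NN_perm (p : ℝ) (σ : ι ≃ ι) (K : Set ι) (F : (ι → Bool) → ℝ) :
    NN p K F = NN p (σ '' K) (fun ζ => F (fun i => ζ (σ i))) := by
  unfold NN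
  rw [← EE_equiv p σ (fun ω => AV p K F ω ^ 2)]
  simp only [AV_perm]

/-! ### graphs -/

section Graph

variable {V : Type}

/-- pairs of different vertices in `A` -/
def EK (A : Set V) : Set (Sym2 V) := {e | ¬ e.IsDiag ∧ ∀ x ∈ e, x ∈ A}

/-- the star of `u` in `A` -/
def ST (u : V) (A : Set V) : Set (Sym2 V) := {e | ∃ w ∈ A, e = s(u, w)}

/-- all pairs without `u`, and the star of `u` in `A` -/
def LA (u : V) (A : Set V) : Set (Sym2 V) := EK {v | v ≠ u} ∪ ST u A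

lemma mem_EK {A : Set V} {u v : V} : s(u, v) ∈ EK A ↔ u ≠ v ∧ u ∈ A ∧ v ∈ A := by
  simp [EK]

lemma EK_mono {A B : Set V} (h : A ⊆ B) : EK A ⊆ EK B := fun _ he => ⟨he.1, fun x hx => h (he.2 x hx)⟩

/-- a permutation of the vertices acts on the pairs -/
def s2 (π : Equiv.Perm V) : Sym2 V ≃ Sym2 V where
  toFun := Sym2.map π
  invFun := Sym2.map π.symm
  left_inv z := by
    induction z using Sym2.ind with
    | _ a b => simp
  right_inv z := by
    induction z using Sym2.ind with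
    | _ a b => simp

lemma s2_mk (π : Equiv.Perm V) (a b : V) : s2 π s(a, b) = s(π a, π b) := rfl

lemma s2_EK (π : Equiv.Perm V) (A : Set V) : s2 π '' EK A = EK (π '' A) := by
  ext e
  induction e using Sym2.ind with
  | _ a b =>
    rw [mem_EK]
    constructor
    · rintro ⟨e', he', h⟩
      induction e' using Sym2.ind with
      | _ c d =>
        rw [mem_EK] at he'
        rw [s2_mk, Sym2.eq_iff] at h
        rcases h with ⟨rfl, rfl⟩ | ⟨rfl, rfl⟩
        · exact ⟨π.injective.ne he'.1, ⟨c, he'.2.1, rfl⟩, ⟨d, he'.2.2, rfl⟩⟩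
        · exact ⟨π.injective.ne he'.1.symm, ⟨d, he'.2.2, rfl⟩, ⟨c, he'.2.1, rfl⟩⟩
    · rintro ⟨h1, ⟨c, hc, rfl⟩, ⟨d, hd, rfl⟩⟩
      exact ⟨s(c, d), mem_EK.mpr ⟨fun h => h1 (by rw [h]), hc, hd⟩, s2_mk π c d⟩

lemma s2_ST (π : Equiv.Perm V) (u : V) (A : Set V) : s2 π '' ST u A = ST (π u) (π '' A) := by
  ext e
  constructor
  · rintro ⟨e', ⟨w, hw, rfl⟩, rfl⟩
    exact ⟨π w, ⟨w, hw, rfl⟩, s2_mk π u w⟩
  · rintro ⟨w', ⟨w, hw, rfl⟩, rfl⟩
    exact ⟨s(u, w), ⟨w, hw, rfl⟩, s2_mk π u w⟩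

lemma PC_perm (π : Equiv.Perm V) (G G' : SimpleGraph V)
    (h : ∀ u v, G'.Adj u v ↔ G.Adj (π u) (π v)) (U : Finset V) (k : ℕ) (hU : PC G U k) :
    PC G' (U.map π.symm.toEmbedding) k := by
  obtain ⟨c, h1, h2⟩ := hU
  have h3 : ∀ v, v ∉ U.map π.symm.toEmbedding → π v ∉ U := by
    intro v hv hπ
    apply hv
    rw [Finset.mem_map]
    exact ⟨π v, hπ, by simp⟩
  exact ⟨fun v => c (π v), fun v hv => h1 _ (h3 v hv),
    fun u v hu hv huv => h2 _ _ (h3 u hu) (h3 v hv) ((h u v).mp huv)⟩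

lemma Ph_perm (l : ℕ) (π : Equiv.Perm V) (G G' : SimpleGraph V)
    (h : ∀ u v, G'.Adj u v ↔ G.Adj (π u) (π v)) : Ph l G' = Ph l G := by
  unfold Ph
  congr 1
  ext m
  constructor
  · rintro ⟨U, k, hU, rfl⟩
    refine ⟨U.map π.symm.symm.toEmbedding, k, PC_perm π.symm G' G ?_ U k hU, by
      rw [Finset.card_map]⟩
    intro u v
    rw [h]
    simp
  · rintro ⟨U, k, hU, rfl⟩
    exact ⟨U.map π.symm.toEmbedding, k, PC_perm π G G' h U k hU, by rw [Finset.card_map]⟩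

/-- the leftover functional is invariant under permutations of the vertices -/
theorem PH_perm (l : ℕ) (π : Equiv.Perm V) (η : Sym2 V → Bool) :
    PH l (fun i => η (s2 π i)) = PH l η := by
  unfold PH
  rw [Ph_perm l π (gr η) (gr fun i => η (s2 π i))]
  intro u v
  show (u ≠ v ∧ η (s2 π s(u, v)) = true) ↔ (π u ≠ π v ∧ η s(π u, π v) = true)
  rw [π.injective.ne_iff]
  rfl

lemma gr_congr {ω ω' : Sym2 V → Bool} (h : ∀ i ∈ EK (Set.univ : Set V), ω i = ω' i) :
    gr ω = gr ω' := by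
  ext u v
  show (u ≠ v ∧ ω s(u, v) = true) ↔ (u ≠ v ∧ ω' s(u, v) = true)
  constructor
  · rintro ⟨h1, h2⟩
    exact ⟨h1, by rw [← h _ (mem_EK.mpr ⟨h1, trivial, trivial⟩)]; exact h2⟩
  · rintro ⟨h1, h2⟩
    exact ⟨h1, by rw [h _ (mem_EK.mpr ⟨h1, trivial, trivial⟩)]; exact h2⟩

/-- the diagonal bits do not matter -/
theorem dep_PH (l : ℕ) : Dep (EK (Set.univ : Set V)) (PH l) := by
  intro ω ω' h
  unfold PH
  rw [gr_congr h]

variable [DecidableEq V]

/-- difference in a pair, after a permutation of the vertices -/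
theorem DD_PH_perm (l : ℕ) (π : Equiv.Perm V) (e : Sym2 V) (η : Sym2 V → Bool) :
    DD (PH l) e (fun i => η (s2 π i)) = DD (PH l) (s2 π e) η := by
  have hupd : ∀ b : Bool, Function.update (fun i => η (s2 π i)) e b =
      fun i => Function.update η (s2 π e) b (s2 π i) := by
    intro b
    funext i
    by_cases hi : i = e
    · rw [hi, Function.update_self, Function.update_self]
    · rw [Function.update_of_ne hi, Function.update_of_ne ((s2 π).injective.ne hi)]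
  unfold DD
  rw [hupd true, hupd false, PH_perm, PH_perm]

end Graph

end Pool.Agent.Helper69.VX
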