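import Pool.Agent.Helper69.VX.Defs
import Pool.Agent.Helper11.PV.St

/-!
# Project VX (MP_e12aa9_pr): statements with proofs

THEOREM. For `0 < p₀ < p₁ < 1` there is `C` with `Var χ(G(n,p)) ≤ C n / (log n)³` for all `n ≥ 2` and all `p ∈ [p₀,p₁]`.

Notation: `F = PH l` (project PV, bits on `Sym2 (Fin n)`); `AV p K F` = mean over the bits outside `K`; `NN p K F = E (AV p K F)²`.
Expose the vertices `0, 1, ..., N` of `G(N+1,p)` one by one; `A = lo (N+1) m = {0, ..., m-1}`; by symmetry the new vertex can be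
`u = Fin.last N`.  The variance is `∑ δ_m`, `δ_m = NN (EK (A ∪ {u})) F - NN (EK A) F`.  The `L¹-L²` inequality is used only for the bits of
the star of `u` in `A`.  By exchangeability of the `N+1-m` vertices outside `A` the mean of `DD F s(u,w)` given the bits in `A` is at
most `al/((1-p)(N+1-m))`, and the sum of the energies is at most `N/(p(1-p))` by telescoping over the bits of the star.

Tools (Defs): `EE_mix`, `AV_AV`, `AV_mix`, `AV_mono`, `AV_nonneg`, `AV_sq`, `NN_le`, `NN_AV`, `NN_mono`, `pyth`, `DD_AV`, `dep_DD`, `AV_congr`,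
`AV_dep`, `AV_perm`, `NN_perm`, `mem_EK`, `EK_mono`, `s2_EK`, `s2_ST`, `PH_perm`, `DD_PH_perm`, `dep_PH`, and the library
Pool/Agent/Helper82/CN/Lib.lean for `EE`.
-/

set_option autoImplicit false

namespace Pool.Agent.Helper69.VX

open Finset Filter Pool.Agent.Helper82.CN Pool.Agent.Helper11.PV

/-- the first `m` vertices -/
def lo (n m : ℕ) : Finset (Fin n) := univ.filter (fun v => v.val < m)

open Classical in
/-- the independence number -/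
noncomputable def al {V : Type} [Fintype V] (ω : Sym2 V → Bool) : ℕ :=
  ((univ : Finset (Finset V)).filter (fun S => ∀ u ∈ S, ∀ v ∈ S, u ≠ v → ω s(u, v) = false)).sup card

/-- PLL (`L¹-L²` inequality for a set `K` of bits, the others fixed).

PROOF.  For fixed `ω` let `g η = F (mix Kᶜ ω η)`.  `StLLG` for `g`: `DD g i = 0` for `i ∉ K` (`mix` does not use the bit `i` of `η`) and
`DD g i η = DD F i (mix Kᶜ ω η)` for `i ∈ K`.  So `VV p g (1 + log s) ≤ s ∑_{i ∈ K} (AV Kᶜ |DD F i| ω)² + 2 ∑_{i ∈ K} AV Kᶜ (DD F i)² ω`, and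
`VV p g = E_η g² - (E_η g)² = AV Kᶜ F² ω - (AV Kᶜ F ω)²`.  Take the expectation over `ω` (`EE_mono`, `EE_AV`, `EE_sum`). -/
def StPLL : Prop := ∀ (p : ℝ) (ι : Type) [Fintype ι] [DecidableEq ι] (F : (ι → Bool) → ℝ)
  (K : Finset ι) (s : ℝ), 0 < p → p < 1 → 0 < s →
  (EE p (fun ω => F ω ^ 2) - NN p ((K : Set ι)ᶜ) F) * (1 + Real.log s) ≤
    s * ∑ i ∈ K, NN p ((K : Set ι)ᶜ) (fun ω => |DD F i ω|) +
    2 * ∑ i ∈ K, EE p (fun ω => DD F i ω ^ 2)

/-- BIT (one more bit).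

PROOF.  Let `G = AV p (insert i K) F`; `AV p K G = AV p K F` (`AV_AV`, `K ∩ insert i K = K`), so by `pyth` the left side is
`E (G - AV p K G)²`.  `G` does not use bits outside `insert i K` (`AV_mix`), so `G (mix K ω η) = G (update ω i (η i))`, and
`AV p K G ω = (1-p) G (update ω i false) + p G (update ω i true)` (`EE_marg` for the single coordinate `i`, or `EE_indep`).  Hence
`G ω - AV p K G ω = (x - p) DD G i ω`, `x = 1` if `ω i = true`, `x = 0` otherwise.  `DD G i` does not depend on the bit `i` (`dep_DD`,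
`dep_univ`), so `E[(x-p)² (DD G i)²] = p(1-p) E (DD G i)²` (`EE_indep`).  `DD G i = AV p (insert i K) (DD F i)` (`DD_AV`)
`= AV p K (DD F i)` (`AV_congr` with `S = univ \ {i}`). -/
def StBIT : Prop := ∀ (p : ℝ) (ι : Type) [Fintype ι] [DecidableEq ι] (F : (ι → Bool) → ℝ)
  (K : Set ι) (i : ι), 0 ≤ p → p ≤ 1 → i ∉ K →
  NN p (insert i K) F - NN p K F = p * (1 - p) * NN p K (DD F i)

/-- PIW (pivotal absent edges at one vertex).  Uses `StPHB`, `StPIV` of project PV.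

PROOF.  As in PIV (3) (Pool/Agent/Helper79/PV/M_PIV.lean): let `(U, k, c)` be optimal for `gr ω`.  If `ω s(v,w) = false` and
`DD (PH l) s(v,w) ω ≠ 0` then `(U, k, c)` is not feasible for the graph with the edge added, so `v ≠ w`, `v ∉ U`, `w ∉ U`, `c v = c w`.
If `w ∈ U` the sum is `0`.  Otherwise `{v ∉ U : c v = c w}` is independent in `gr ω`, so it has at most `a` elements, and every term of the
sum is `0` or `1`. -/
def StPIW : Prop := ∀ (V : Type) [Fintype V] [DecidableEq V] (l : ℕ) (ω : Sym2 V → Bool) (a : ℕ)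
  (w : V), (∀ S : Finset V, (∀ u ∈ S, ∀ v ∈ S, u ≠ v → ω s(u, v) = false) → S.card ≤ a) →
  ∑ v : V, (if ω s(v, w) = false then DD (PH l) s(v, w) ω else 0) ≤ a

/-- STL (the projected influence of a bit of the star).  Uses `StPIW`, `StPIV` (2).

PROOF.  `D v = DD (PH l) s(v,w) ≥ 0` (PIV (2)).  (a) For `v ∉ A`: `AV (EK A) (D v) = AV (EK A) (D u)`: let `π = swap u v`, it fixes `A`
pointwise and `w`.  `AV_perm` with `σ = s2 π`, `K = EK A`, `F = D u`: `σ '' K = EK A`, and `D u (fun i => ζ (σ i)) = D v ζ` (`DD_PH_perm`), so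
`AV (EK A) (D u) (fun i => ω (σ i)) = AV (EK A) (D v) ω`; and `σ e = e` for `e ∈ EK A`, so `AV (EK A) (D u)` has the same value at `ω` and at
`fun i => ω (σ i)` (its value depends only on the bits in `EK A`).
(b) `AV (EK A) (D v) = (1-p)⁻¹ AV (EK A) (fun ζ => if ζ s(v,w) = false then D v ζ else 0)`: `s(v,w) ∉ EK A`, so under `AV` this bit comes from `η`
and is independent of the rest (`EE_indep`, `D v` does not depend on it: `dep_DD`).
(c) Sum over `v ∉ A` (`n - |A|` of them): `(n - |A|) AV (EK A) (D u) ω ≤ (1-p)⁻¹ AV (EK A) (al) ω` by PIW with `a = al ζ` (the terms with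
`v ∈ A` are `≥ 0`).  Square, take the expectation, and `NN_le` for `al`. -/
def StSTL : Prop := ∀ (p : ℝ) (n l : ℕ) (A : Finset (Fin n)) (u w : Fin n), 0 < p → p < 1 →
  u ∉ A → w ∈ A →
  ((n - A.card : ℕ) : ℝ) ^ 2 * NN p (EK (A : Set (Fin n))) (DD (PH l) s(u, w)) ≤
    EE p (fun ω : Sym2 (Fin n) → Bool => (al ω : ℝ) ^ 2) / (1 - p) ^ 2

/-- VOS (the variance given all edges which do not contain `u`).  Uses `StPHB` (3).

PROOF.  `pyth` with `K = EK {v | v ≠ u}`: the left side is `E (F - AV p K F)²`.  For all `ω, η`: `|F ω - F (mix K ω η)| ≤ 1` by PHB (3) (twice): every edge of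
one of the two graphs which does not contain `u` is an edge of the other one.  So `|F ω - AV p K F ω| ≤ 1` (`EE_sub`, `EE_const`,
`EE_mono`). -/
def StVOS : Prop := ∀ (p : ℝ) (n l : ℕ) (u : Fin n), 0 ≤ p → p ≤ 1 →
  EE p (fun ω : Sym2 (Fin n) → Bool => PH l ω ^ 2) - NN p (EK {v | v ≠ u}) (PH l) ≤ 1

/-- STQ (the sum of the energies).  Uses `StBIT`, `StVOS`.

PROOF.  `u = Fin.last N`, `A m = lo (N+1) m`, `F = PH l`.  Let `1 ≤ m ≤ N` and `x` the vertex with value `m - 1`, so `x ∈ A m`, `A m = A (m-1) ∪ {x}`.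
(a) For `w ∈ A m`: `NN (LA u (A m)) (DD F s(u,w)) = NN (LA u (A m)) (DD F s(u,x))`: `NN_perm` with `σ = s2 (swap w x)` (`DD_PH_perm`); `swap w x` maps
`A m` to itself and fixes `u`, so `σ '' LA u (A m) = LA u (A m)` (`s2_EK`, `s2_ST`, `Set.image_union`).
(b) `LA u (A m) = insert s(u,x) (LA u (A (m-1)))`, and `DD F s(u,x)` does not depend on the bit `s(u,x)`, so (`AV_congr`)
`NN (LA u (A m)) (DD F s(u,x)) = NN (LA u (A (m-1))) (DD F s(u,x))`, and by BIT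
`p(1-p) NN (LA u (A (m-1))) (DD F s(u,x)) = NN (LA u (A m)) F - NN (LA u (A (m-1))) F ≥ 0` (`s(u,x) ∉ LA u (A (m-1))`).
So the term `m` of the sum is `p(1-p) · m · (..) ≤ N (NN (LA u (A m)) F - NN (LA u (A (m-1))) F)`; the term `m = 0` is `0`.  Telescoping sum:
`≤ N (NN (LA u (A N)) F - NN (LA u ∅) F) ≤ N (E F² - NN (EK {v | v ≠ u}) F) ≤ N` (`NN_le`, `LA u ∅ = EK {v | v ≠ u}`, VOS). -/
def StSTQ : Prop := ∀ (p : ℝ) (N l : ℕ), 0 < p → p < 1 →
  p * (1 - p) * ∑ m ∈ range (N + 1), ∑ w ∈ lo (N + 1) m,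
    NN p (LA (Fin.last N) (lo (N + 1) m : Set (Fin (N + 1)))) (DD (PH l) s(Fin.last N, w)) ≤ N

/-- STP (one step).  Uses `StPLL`, `StVOS`, `StPIV` (2) (`DD (PH l) e ≥ 0`).

PROOF.  `u = Fin.last N`, `A = lo (N+1) m`, `F = PH l`, `B = A ∪ {u}`; `u ∉ A` as `m ≤ N`.
(a) `NN (EK (lo (N+1) (m+1))) F = NN (EK B) F`: `NN_perm` with `σ = s2 (swap x u)`, `x` = the vertex with value `m` (`PH_perm`, `s2_EK`; `swap x u` fixes `A`
pointwise and maps `x` to `u`).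
(b) Let `h = AV p (EK B) F`, `K` = the set of the `s(u,w)`, `w ∈ A` (`A.image (fun w => s(u,w))`).  `E h² = NN (EK B) F`; `Kᶜ ∩ EK B = EK A`, so
`NN Kᶜ h = NN (EK A) F` (`NN_AV`).  For `i = s(u,w) ∈ K`: `i ∈ EK B`, `DD h i = AV (EK B) (DD F i) ≥ 0` (`DD_AV`), so `|DD h i| = DD h i`,
`NN Kᶜ (DD h i) = NN (EK A) (DD F i)` and `E (DD h i)² = NN (EK B) (DD F i) ≤ NN (LA u A) (DD F i)` (`NN_mono`: `EK B ⊆ LA u A`).  PLL for `h` gives the first
claim (`w ↦ s(u,w)` is injective).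
(c) `h - AV (EK A) F = AV (EK B) (F - AV (EK {v | v ≠ u}) F)` (`AV_AV`; `EK B ∩ EK {v | v ≠ u} = EK A`), so with `pyth` (`AV (EK A) h = AV (EK A) F`) and `NN_le`:
`NN (EK B) F - NN (EK A) F = E (h - AV (EK A) h)² ≤ E (F - AV (EK {v | v ≠ u}) F)² = E F² - NN (EK {v | v ≠ u}) F ≤ 1`. -/
def StSTP : Prop := ∀ (p : ℝ) (N l m : ℕ) (s : ℝ), 0 < p → p < 1 → 0 < s → m ≤ N →
  (NN p (EK (lo (N + 1) (m + 1) : Set (Fin (N + 1)))) (PH l) -
    NN p (EK (lo (N + 1) m : Set (Fin (N + 1)))) (PH l)) * (1 + Real.log s) ≤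
    s * ∑ w ∈ lo (N + 1) m, NN p (EK (lo (N + 1) m : Set (Fin (N + 1)))) (DD (PH l) s(Fin.last N, w)) +
    2 * ∑ w ∈ lo (N + 1) m,
      NN p (LA (Fin.last N) (lo (N + 1) m : Set (Fin (N + 1)))) (DD (PH l) s(Fin.last N, w)) ∧
  NN p (EK (lo (N + 1) (m + 1) : Set (Fin (N + 1)))) (PH l) -
    NN p (EK (lo (N + 1) m : Set (Fin (N + 1)))) (PH l) ≤ 1

/-- VAR (the variance of the leftover functional).  Uses `StSTP`, `StSTL`, `StSTQ`.

PROOF.  `n = N + 1`, `δ m` = the difference in STP, `m ∈ range (N+1)`.  `∑ δ m = NN (EK (lo n n)) F - NN (EK (lo n 0)) F` (telescoping)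
`= E F² - (E F)² = VV p F`: `lo n n = univ` and `AV (EK univ) F = F` (`AV_dep`, `dep_PH`); `EK ∅ = ∅`, `AV ∅ F = E F` (constant).
For `m ≤ n - M`: STP (1), and by STL (`|lo n m| = m`) `NN (EK (lo n m)) (DD F s(u,w)) ≤ E al²/((1-p)² (n-m)²) ≤ E al²/((1-p)² M²)`, `m ≤ n` vertices `w`;
for the `m` with `n - M < m ≤ N` (at most `M` of them): `δ m (1 + log s) ≤ 1 + log s` (STP (2), `log s ≥ 0`).  Sum over `m` (all terms are `≥ 0`),
and STQ for the sum of the last terms: `2 N/(p(1-p))`. -/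
def StVAR : Prop := ∀ (p : ℝ) (N l M : ℕ) (s : ℝ), 0 < p → p < 1 → 1 ≤ s → 1 ≤ M →
  VV p (PH l : (Sym2 (Fin (N + 1)) → Bool) → ℝ) * (1 + Real.log s) ≤
    M * (1 + Real.log s) +
    s * ((N + 1 : ℕ) : ℝ) ^ 2 * EE p (fun ω : Sym2 (Fin (N + 1)) → Bool => (al ω : ℝ) ^ 2) /
      ((1 - p) ^ 2 * (M : ℝ) ^ 2) +
    2 * N / (p * (1 - p))

/-- ALS (second moment of the independence number).  Uses `StUBD` of project PV.

PROOF.  `a = ⌈n^{1/8}⌉`, `k = a + 1`.  If there is no independent set with `k` vertices then `al ≤ a` (subsets of independent sets are independent), always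
`al ≤ n`; so `E al² ≤ a² + n² P`, `P` = probability of an independent set with `k` vertices.  UBD with `b = false`:
`P ≤ n^k (1-p)^(k(k-1)/2) = (n (1-p)^(a/2))^k ≤ n (1-p₀)^(n^{1/8}/2) ≤ n⁻²` for large `n` (as `n³ (1-p₀)^(n^{1/8}/2) → 0`, and `t^k ≤ t` for `0 ≤ t ≤ 1`).
`a² ≤ (n^{1/8} + 1)² ≤ 4 n^{1/4}`. -/
def StALS : Prop := ∀ p₀ : ℝ, 0 < p₀ → p₀ < 1 → ∃ n₀ : ℕ, ∀ (n : ℕ) (p : ℝ), n₀ ≤ n → p₀ ≤ p →
  p < 1 → EE p (fun ω : Sym2 (Fin n) → Bool => (al ω : ℝ) ^ 2) ≤ 5 * (n : ℝ) ^ ((1 : ℝ) / 4)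

/-- FIV (the variance of the leftover functional, large `n`).  Uses `StVAR`, `StALS`.

PROOF.  `n = N + 1`, `s = n^{1/8}`, `M = ⌈n^{3/4}⌉ ≤ 2 n^{3/4}`, `log s = (log n)/8`.  VAR and ALS:
`VV (1 + (log n)/8) ≤ 2 n^{3/4} (1 + (log n)/8) + 5 n^{1/8 + 2 + 1/4 - 3/2}/(1-p₁)² + 2 n/(p₀(1-p₁))`, and `n^{7/8} ≤ n`, `n^{3/4} log n ≤ C n`.  Divide by
`(log n)/8`. -/
def StFIV : Prop := ∀ p₀ p₁ : ℝ, 0 < p₀ → p₀ < p₁ → p₁ < 1 → ∃ C : ℝ, 0 < C ∧ ∃ n₀ : ℕ,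
  ∀ (n l : ℕ) (p : ℝ), n₀ ≤ n → p₀ ≤ p → p ≤ p₁ →
    VV p (PH l : (Sym2 (Fin n) → Bool) → ℝ) ≤ C * (n / Real.log n)

/-- FIN (the theorem).  Uses `StFIV`, `StCMP` of project PV.

PROOF.  `l ≥ c log n` from CMP.  `vn p n ≤ E (χ - (E F)/l)²` (the mean minimises) `≤ 2 E (χ - F/l)² + 2 VV F/l² ≤ 4 √n + 2 C n/(c² (log n)³) ≤ C' n/(log n)³` for
large `n` (compare Pool/Agent/Helper24/PV/M_PTW.lean).  For `2 ≤ n < n₀`: `vn p n ≤ n²` (`0 ≤ χ ≤ n`) and `n/(log n)³ ≥ n/(log n₀)³ > 0`. -/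
def StFIN : Prop := ∀ p₀ p₁ : ℝ, 0 < p₀ → p₀ < p₁ → p₁ < 1 → ∃ C : ℝ, 0 < C ∧ ∀ (n : ℕ) (p : ℝ),
  2 ≤ n → p₀ ≤ p → p ≤ p₁ → vn p n ≤ C * (n / Real.log n ^ 3)

end Pool.Agent.Helper69.VX
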